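import Pool.Agent.helper51.QS.SpecA

/-!
# MP_74cfa5_ag, row qs:TRB
-/

set_option autoImplicit false
set_option linter.style.haveILetI false

namespace Pool.Agent.QS

open Pool.Agent.PC MvPolynomial

universe u

theorem TRB_int {R S : Type u} [CommRing R] [CommRing S] [Algebra R S] [Algebra.IsIntegral R S]
    (hinj : Function.Injective (algebraMap R S)) : ringKrullDim R = ringKrullDim S := by
  apply le_antisymm
  · unfold ringKrullDim
    apply iSup_le
    intro l
    obtain ⟨P, _, hP, hPc⟩ := Ideal.exists_ideal_over_prime_of_isIntegral (S := S) l.head.asIdeal ⊥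
      (by
        rw [← RingHom.ker_eq_comap_bot, (RingHom.injective_iff_ker_eq_bot _).1 hinj]
        exact bot_le)
    haveI := hP
    haveI : P.LiesOver l.head.asIdeal := ⟨hPc.symm⟩
    obtain ⟨L, hL, _, _⟩ := Ideal.exists_ltSeries_of_hasGoingUp l P
    rw [← hL]
    exact Order.LTSeries.length_le_krullDim L
  · apply Order.krullDim_le_of_strictMono (PrimeSpectrum.comap (algebraMap R S))
    intro P Q h
    exact Ideal.IsIntegral.comap_lt_comap (R := R) (I := P.asIdeal) (J := Q.asIdeal) h

theorem TRB : TRB_stmt.{u} := by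
  intro k A K _ _ _ _ _ _ _ _ _ _ n hn
  obtain ⟨s, g, hinj, hint⟩ := exists_integral_inj_algHom_of_fg k A
  letI i1 : Algebra (MvPolynomial (Fin s) k) A := g.toRingHom.toAlgebra
  haveI : IsScalarTower k (MvPolynomial (Fin s) k) A :=
    IsScalarTower.of_algebraMap_eq fun r => (g.commutes r).symm
  letI i2 : Algebra (MvPolynomial (Fin s) k) K := ((algebraMap A K).comp g.toRingHom).toAlgebra
  haveI : IsScalarTower (MvPolynomial (Fin s) k) A K := IsScalarTower.of_algebraMap_eq fun r => rfl
  haveI : IsScalarTower k (MvPolynomial (Fin s) k) K := by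
    refine IsScalarTower.of_algebraMap_eq fun r => ?_
    rw [IsScalarTower.algebraMap_apply k A K, IsScalarTower.algebraMap_apply (MvPolynomial (Fin s) k) A K,
      ← IsScalarTower.algebraMap_apply k (MvPolynomial (Fin s) k) A]
  haveI i3 : Algebra.IsIntegral (MvPolynomial (Fin s) k) A := ⟨hint⟩
  have hinj2 : Function.Injective (algebraMap (MvPolynomial (Fin s) k) A) := hinj
  have hinj3 : Function.Injective (algebraMap (MvPolynomial (Fin s) k) K) := by
    rw [IsScalarTower.algebraMap_eq (MvPolynomial (Fin s) k) A K, RingHom.coe_comp]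
    exact (IsFractionRing.injective A K).comp hinj2
  have hdim : ringKrullDim (MvPolynomial (Fin s) k) = (s : WithBot ℕ∞) := by
    rw [MvPolynomial.ringKrullDim_of_isNoetherianRing]
    simp
  have hs : s = n := by
    have h1 := TRB_int hinj2
    rw [hdim, hn] at h1
    exact_mod_cast h1
  subst hs
  haveI : FaithfulSMul (MvPolynomial (Fin s) k) K := (faithfulSMul_iff_algebraMap_injective _ _).2 hinj3
  haveI : Algebra.IsAlgebraic (MvPolynomial (Fin s) k) A := inferInstance
  haveI : Algebra.IsAlgebraic (MvPolynomial (Fin s) k) K :=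
    (IsFractionRing.isAlgebraic_iff' (MvPolynomial (Fin s) k) A K).1 inferInstance
  exact ⟨_, (IsTranscendenceBasis.mvPolynomial (Fin s) k).algebraMap_comp (A := K)⟩

end Pool.Agent.QS
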